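import Pool.Agent.H257R4.TP.St

set_option autoImplicit false

/-!
# T6: the disjunction of `M` copies of a circuit
-/

namespace Pool.Agent.H257R4.TP

namespace BlkAux

/-- relabel the input gates -/
def mp {X Y : Type} (e : Y → X) : Gate Y → Gate X
  | .inp y => .inp (e y)
  | .cst c => .cst c
  | .an x y => .an x y
  | .or x y => .or x y

theorem wf_app {X : Type} {H : List (Gate X)} (hH : WF H) :
    ∀ G : List (Gate X), WF G → WF (G ++ H)
  | [], _ => hH
  | .inp _ :: G, h => wf_app hH G h
  | .cst _ :: G, h => wf_app hH G h
  | .an x y :: G, h => by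
    obtain ⟨h1, h2, h3⟩ := h
    have h4 : (G ++ H).length = G.length + H.length := List.length_append
    have h5 : x < (G ++ H).length := by omega
    have h6 : y < (G ++ H).length := by omega
    exact ⟨h5, h6, wf_app hH G h3⟩
  | .or x y :: G, h => by
    obtain ⟨h1, h2, h3⟩ := h
    have h4 : (G ++ H).length = G.length + H.length := List.length_append
    have h5 : x < (G ++ H).length := by omega
    have h6 : y < (G ++ H).length := by omega
    exact ⟨h5, h6, wf_app hH G h3⟩

theorem wf_map {X Y : Type} (e : Y → X) : ∀ G : List (Gate Y), WF G → WF (G.map (mp e))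
  | [], _ => trivial
  | .inp _ :: G, h => wf_map e G h
  | .cst _ :: G, h => wf_map e G h
  | .an x y :: G, h => by
    obtain ⟨h1, h2, h3⟩ := h
    refine ⟨?_, ?_, wf_map e G h3⟩
    · rw [List.length_map]; exact h1
    · rw [List.length_map]; exact h2
  | .or x y :: G, h => by
    obtain ⟨h1, h2, h3⟩ := h
    refine ⟨?_, ?_, wf_map e G h3⟩
    · rw [List.length_map]; exact h1
    · rw [List.length_map]; exact h2

theorem loc_app {X : Type} (B : ℕ) {H : List (Gate X)} (hH : Loc B H) :
    ∀ G : List (Gate X), Loc B G → Loc B (G ++ H)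
  | [], _ => hH
  | .inp _ :: G, h => loc_app B hH G h
  | .cst _ :: G, h => loc_app B hH G h
  | .an _ _ :: G, h => ⟨h.1, h.2.1, loc_app B hH G h.2.2⟩
  | .or _ _ :: G, h => ⟨h.1, h.2.1, loc_app B hH G h.2.2⟩

theorem loc_of_wf {X : Type} (B : ℕ) : ∀ G : List (Gate X), WF G → G.length ≤ B → Loc B G
  | [], _, _ => trivial
  | .inp _ :: G, h, hB => loc_of_wf B G h (by rw [List.length_cons] at hB; omega)
  | .cst _ :: G, h, hB => loc_of_wf B G h (by rw [List.length_cons] at hB; omega)
  | .an x y :: G, h, hB => by
    obtain ⟨h1, h2, h3⟩ := h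
    rw [List.length_cons] at hB
    exact ⟨by omega, by omega, loc_of_wf B G h3 (by omega)⟩
  | .or x y :: G, h, hB => by
    obtain ⟨h1, h2, h3⟩ := h
    rw [List.length_cons] at hB
    exact ⟨by omega, by omega, loc_of_wf B G h3 (by omega)⟩

theorem evL_length {X : Type} (v : X → Bool) : ∀ G : List (Gate X), (evL v G).length = G.length
  | [] => rfl
  | .inp _ :: G => congrArg (· + 1) (evL_length v G)
  | .cst _ :: G => congrArg (· + 1) (evL_length v G)
  | .an _ _ :: G => congrArg (· + 1) (evL_length v G)
  | .or _ _ :: G => congrArg (· + 1) (evL_length v G)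

theorem evL_app {X : Type} (v : X → Bool) (H : List (Gate X)) :
    ∀ G : List (Gate X), WF G → evL v (G ++ H) = evL v G ++ evL v H
  | [], _ => rfl
  | .inp x :: G, h => by
    change v x :: evL v (G ++ H) = v x :: (evL v G ++ evL v H)
    rw [evL_app v H G h]
  | .cst c :: G, h => by
    change c :: evL v (G ++ H) = c :: (evL v G ++ evL v H)
    rw [evL_app v H G h]
  | .an x y :: G, h => by
    obtain ⟨h1, h2, h3⟩ := h
    change ((evL v (G ++ H))[x]?.getD false && (evL v (G ++ H))[y]?.getD false) ::
      evL v (G ++ H) = ((evL v G)[x]?.getD false && (evL v G)[y]?.getD false) ::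
      (evL v G ++ evL v H)
    rw [evL_app v H G h3, List.getElem?_append_left (by rw [evL_length]; exact h1),
      List.getElem?_append_left (by rw [evL_length]; exact h2)]
  | .or x y :: G, h => by
    obtain ⟨h1, h2, h3⟩ := h
    change ((evL v (G ++ H))[x]?.getD false || (evL v (G ++ H))[y]?.getD false) ::
      evL v (G ++ H) = ((evL v G)[x]?.getD false || (evL v G)[y]?.getD false) ::
      (evL v G ++ evL v H)
    rw [evL_app v H G h3, List.getElem?_append_left (by rw [evL_length]; exact h1),
      List.getElem?_append_left (by rw [evL_length]; exact h2)]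

theorem evL_map {X Y : Type} (v : X → Bool) (e : Y → X) :
    ∀ G : List (Gate Y), evL v (G.map (mp e)) = evL (fun y => v (e y)) G
  | [] => rfl
  | .inp x :: G => by
    change v (e x) :: evL v (G.map (mp e)) = v (e x) :: evL (fun y => v (e y)) G
    rw [evL_map v e G]
  | .cst c :: G => by
    change c :: evL v (G.map (mp e)) = c :: evL (fun y => v (e y)) G
    rw [evL_map v e G]
  | .an x y :: G => by
    change ((evL v (G.map (mp e)))[x]?.getD false && (evL v (G.map (mp e)))[y]?.getD false) ::
      evL v (G.map (mp e)) = ((evL (fun y => v (e y)) G)[x]?.getD false &&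
      (evL (fun y => v (e y)) G)[y]?.getD false) :: evL (fun y => v (e y)) G
    rw [evL_map v e G]
  | .or x y :: G => by
    change ((evL v (G.map (mp e)))[x]?.getD false || (evL v (G.map (mp e)))[y]?.getD false) ::
      evL v (G.map (mp e)) = ((evL (fun y => v (e y)) G)[x]?.getD false ||
      (evL (fun y => v (e y)) G)[y]?.getD false) :: evL (fun y => v (e y)) G
    rw [evL_map v e G]

end BlkAux

open BlkAux in
/-- T6: the disjunction of `M` copies -/
theorem blocks : StBlocks := by
  intro X Y G hG j hj M e
  induction M with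
  | zero =>
    refine ⟨[.cst false], trivial, by simp, by simp, trivial, fun v => ?_⟩
    constructor
    · intro h
      have : (false : Bool) = true := h
      exact absurd this (by decide)
    · rintro ⟨b, hb, _⟩
      exact absurd hb (Nat.not_lt_zero b)
  | succ k ih =>
    obtain ⟨H, h1, h2, h3, h4, h5⟩ := ih
    have hH : 0 < H.length := List.length_pos_iff.2 h2
    have hwm : WF (G.map (mp (e k))) := wf_map (e k) G hG
    refine ⟨.or j G.length :: (G.map (mp (e k)) ++ H), ?_, by simp, ?_, ?_, fun v => ?_⟩
    · refine ⟨?_, ?_, wf_app h1 _ hwm⟩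
      · rw [List.length_append, List.length_map]; omega
      · rw [List.length_append, List.length_map]; omega
    · rw [List.length_cons, List.length_append, List.length_map, h3]
      ring
    · refine ⟨by omega, by omega, loc_app _ h4 _ (loc_of_wf _ _ hwm ?_)⟩
      rw [List.length_map]
      omega
    · have hlen : (evL (fun y => v (e k y)) G).length = G.length := evL_length _ G
      have e1 : evL v (G.map (mp (e k)) ++ H) = evL (fun y => v (e k y)) G ++ evL v H := by
        rw [evL_app v H _ hwm, evL_map]
      have e2 : (evL v (.or j G.length :: (G.map (mp (e k)) ++ H)))[0]?.getD false =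
          ((evL (fun y => v (e k y)) G)[j]?.getD false || (evL v H)[0]?.getD false) := by
        change ((evL v (G.map (mp (e k)) ++ H))[j]?.getD false ||
          (evL v (G.map (mp (e k)) ++ H))[G.length]?.getD false) = _
        rw [e1, List.getElem?_append_left (by rw [hlen]; exact hj),
          List.getElem?_append_right (by rw [hlen]), hlen, Nat.sub_self]
      rw [e2, Bool.or_eq_true, h5 v]
      constructor
      · rintro (h | ⟨b, hb, h⟩)
        · exact ⟨k, Nat.lt_succ_self k, h⟩
        · exact ⟨b, Nat.lt_succ_of_lt hb, h⟩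
      · rintro ⟨b, hb, h⟩
        rcases Nat.lt_succ_iff_lt_or_eq.1 hb with h6 | h6
        · exact Or.inr ⟨b, h6, h⟩
        · subst h6
          exact Or.inl h

end Pool.Agent.H257R4.TP
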