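import Pool.Agent.H534R2.GenFlat
import Pool.Agent.H541R2.Pda

set_option autoImplicit false

/-!
# A two-way pushdown automaton with one head that evaluates monotone circuits: definitions
-/

namespace Pool.Agent.H257R4.TP

open H534R2.Gen Pool.Agent.H541R2

/-- tags of the cells of a word: the first five begin a gate (`inp` input gate, `tt`, `ff` constants,
`an` conjunction, `or` disjunction), `pa` and `pb` are the cells of the two pointers of a gate -/
inductive Tag
  | inp | tt | ff | an | or | pa | pb
  deriving DecidableEq

instance : Fintype Tag :=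
  ⟨{.inp, .tt, .ff, .an, .or, .pa, .pb}, fun t => by cases t <;> simp⟩

/-- the tags that begin a gate -/
def Tag.mk : Tag → Bool
  | .pa => false
  | .pb => false
  | _ => true

/-- stack symbols: `d` distance of the way back, `e` distance of the way to the operand, `f1`, `f2`:
the first, second operand is evaluated -/
inductive Sy
  | d | e | f1 | f2
  deriving DecidableEq

instance : Fintype Sy := ⟨{.d, .e, .f1, .f2}, fun t => by cases t <;> simp⟩

/-- states -/
inductive St
  | q0 | qL | ev | p1 | q1 | go | gl | p2a | p2 | q2 | acc | dead
  | ret (v : Bool) | rr (v : Bool)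
  deriving DecidableEq

instance : Fintype St :=
  ⟨{.q0, .qL, .ev, .p1, .q1, .go, .gl, .p2a, .p2, .q2, .acc, .dead, .ret true, .ret false,
    .rr true, .rr false}, fun t => by
      rcases t with _ | _ | _ | _ | _ | _ | _ | _ | _ | _ | _ | _ | v | v <;> simp⟩

/-- the transition function of the automaton, for one head -/
def dl : St → Bool × Option (Tag × Bool) → Option Sy → St × Fin 3 × List Sy
  | .q0, (true, _), t => (.q0, 2, t.toList)
  | .q0, (false, some _), t => (.q0, 2, t.toList)
  | .q0, (false, none), t => (.qL, 0, t.toList)
  | .qL, (false, some (g, _)), t => if g.mk then (.ev, 1, t.toList) else (.qL, 0, t.toList)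
  | .ev, (_, some (.inp, x)), t => (.ret x, 1, t.toList)
  | .ev, (_, some (.tt, _)), t => (.ret true, 1, t.toList)
  | .ev, (_, some (.ff, _)), t => (.ret false, 1, t.toList)
  | .ev, (_, some (.an, _)), t => (.p1, 2, .f1 :: t.toList)
  | .ev, (_, some (.or, _)), t => (.p1, 2, .f1 :: t.toList)
  | .p1, (_, some (.pa, _)), t => (.p1, 2, .d :: t.toList)
  | .p1, _, t => (.q1, 0, t.toList)
  | .q1, (_, some (g, _)), t => if g.mk then (.go, 1, t.toList) else (.q1, 0, .e :: t.toList)
  | .go, _, some .e => (.gl, 0, [])
  | .go, _, t => (.ev, 1, t.toList)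
  | .gl, (_, some (g, _)), t => if g.mk then (.go, 1, t.toList) else (.gl, 0, t.toList)
  | .ret v, _, some .d => (.rr v, 2, [])
  | .ret v, (_, some (g, _)), some .f1 =>
      if v = decide (g = .an) then (.p2a, 2, [.f2]) else (.ret v, 1, [])
  | .ret v, _, some .f2 => (.ret v, 1, [])
  | .ret v, _, none => (if v then .acc else .dead, 1, [])
  | .rr v, (_, some (g, _)), t => if g.mk then (.ret v, 1, t.toList) else (.rr v, 2, t.toList)
  | .p2a, (_, some (.pa, _)), t => (.p2a, 2, t.toList)
  | .p2a, (_, some (.pb, _)), t => (.p2, 2, .d :: t.toList)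
  | .p2, (_, some (.pb, _)), t => (.p2, 2, .d :: t.toList)
  | .p2, _, t => (.q2, 0, t.toList)
  | .q2, (_, some (g, _)), t =>
      if g.mk then (.go, 1, t.toList) else if g = .pb then (.q2, 0, .e :: t.toList)
      else (.q2, 0, t.toList)
  | .acc, _, t => (.acc, 1, t.toList)
  | _, _, t => (.dead, 1, t.toList)

/-- the transition function in the format of the problem -/
def del (q : St) (x : Fin 1 → Bool × Option (Tag × Bool)) (t : Option Sy) :
    St × (Fin 1 → Fin 3) × List Sy :=
  ((dl q (x 0) t).1, fun _ => (dl q (x 0) t).2.1, (dl q (x 0) t).2.2)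

/-- the language of the automaton -/
def LL : Set (List (Tag × Bool)) :=
  {w | ∃ m : ℕ, ((pdaStep del w)^[m] (St.q0, (fun _ => 0), [])).1 ∈ ({St.acc} : Set St)}

/-- gates; the operands of `an x y` are the gates `x + 1` and `y + 1` places before it -/
inductive Gate (X : Type)
  | inp (x : X) | cst (c : Bool) | an (x y : ℕ) | or (x y : ℕ)

/-- the cells of a gate: tag and input variable -/
def Gate.block {X : Type} : Gate X → List (Tag × Option X)
  | .inp x => [(.inp, some x)]
  | .cst true => [(.tt, none)]
  | .cst false => [(.ff, none)]
  | .an x y => (.an, none) :: (List.replicate (x + 1) (.pa, none) ++ List.replicate (y + 1) (.pb, none))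
  | .or x y => (.or, none) :: (List.replicate (x + 1) (.pa, none) ++ List.replicate (y + 1) (.pb, none))

/-- the cells of a circuit; the newest gate is the head of the list, but the last in the word -/
def cells {X : Type} : List (Gate X) → List (Tag × Option X)
  | [] => []
  | g :: G => cells G ++ g.block

/-- all operands exist -/
def WF {X : Type} : List (Gate X) → Prop
  | [] => True
  | .inp _ :: G => WF G
  | .cst _ :: G => WF G
  | .an x y :: G => x < G.length ∧ y < G.length ∧ WF G
  | .or x y :: G => x < G.length ∧ y < G.length ∧ WF G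

/-- the values of the gates, newest first, for an assignment of the variables -/
def evL {X : Type} (v : X → Bool) : List (Gate X) → List Bool
  | [] => []
  | .inp x :: G => v x :: evL v G
  | .cst c :: G => c :: evL v G
  | .an x y :: G => ((evL v G)[x]?.getD false && (evL v G)[y]?.getD false) :: evL v G
  | .or x y :: G => ((evL v G)[x]?.getD false || (evL v G)[y]?.getD false) :: evL v G

/-- the values of the gates when the bit of cell `p` is `β p` -/
def evP {X : Type} (β : ℕ → Bool) : List (Gate X) → List Bool
  | [] => []
  | .inp _ :: G => β (cells G).length :: evP β G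
  | .cst c :: G => c :: evP β G
  | .an x y :: G => ((evP β G)[x]?.getD false && (evP β G)[y]?.getD false) :: evP β G
  | .or x y :: G => ((evP β G)[x]?.getD false || (evP β G)[y]?.getD false) :: evP β G

end Pool.Agent.H257R4.TP
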