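import Pool.Agent.H257R4.TP.St

set_option autoImplicit false

namespace Pool.Agent.H257R4.TP

open H534R2.Gen Pool.Agent.H541R2

theorem eval_eq : StEval := by
  intro X β v G
  induction G with
  | nil => intro _; rfl
  | cons g G ih =>
    intro h
    have h' : ∀ (p : ℕ) (t : Tag) (x : X), (cells G)[p]? = some (t, some x) → β p = v x := by
      intro p t x hp
      apply h p t x
      have hlt : p < (cells G).length := by
        by_contra hcon
        rw [List.getElem?_eq_none (by omega)] at hp
        cases hp
      show (cells G ++ g.block)[p]? = _
      rw [List.getElem?_append_left hlt]
      exact hp
    have ih' := ih h'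
    cases g with
    | inp x =>
      have h1 : β (cells G).length = v x := by
        apply h (cells G).length Tag.inp x
        show (cells G ++ [(Tag.inp, some x)])[(cells G).length]? = _
        rw [List.getElem?_append_right le_rfl]
        simp
      simp only [evP, evL, ih', h1]
    | cst c => simp only [evP, evL, ih']
    | an x y => simp only [evP, evL, ih']
    | or x y => simp only [evP, evL, ih']

end Pool.Agent.H257R4.TP
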