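import Pool.Agent.H257R4.TP.St

set_option autoImplicit false

/-!
# Monotone circuits are lists of gates
-/

namespace Pool.Agent.H257R4.TP

open H534R2.Gen Pool.Agent.H541R2

theorem mc_gates : StMC := by
  intro X L hL
  induction hL with
  | nil => exact ⟨[], trivial, rfl, fun v i hi => absurd hi (by simp)⟩
  | cst p L hL ih =>
    obtain ⟨G, h1, h2, h3⟩ := ih
    classical
    refine ⟨.cst (decide p) :: G, h1, by simp [h2], ?_⟩
    intro v i hi
    cases i with
    | zero => simp [evL]
    | succ i => simpa [evL] using h3 v i (by simpa using hi)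
  | var x L hL ih =>
    obtain ⟨G, h1, h2, h3⟩ := ih
    refine ⟨.inp x :: G, h1, by simp [h2], ?_⟩
    intro v i hi
    cases i with
    | zero => simp [evL]
    | succ i => simpa [evL] using h3 v i (by simpa using hi)
  | and f g L hf hg hL ih =>
    obtain ⟨G, h1, h2, h3⟩ := ih
    obtain ⟨a, ha, rfl⟩ := List.getElem_of_mem hf
    obtain ⟨b, hb, rfl⟩ := List.getElem_of_mem hg
    refine ⟨.an a b :: G, ⟨h2 ▸ ha, h2 ▸ hb, h1⟩, by simp [h2], ?_⟩
    intro v i hi
    cases i with
    | zero =>
      have e1 := h3 v a ha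
      have e2 := h3 v b hb
      simp only [evL, List.getElem?_cons_zero, Option.getD_some, Bool.and_eq_true,
        List.getElem_cons_zero]
      rw [e1, e2]
    | succ i => simpa [evL] using h3 v i (by simpa using hi)
  | or f g L hf hg hL ih =>
    obtain ⟨G, h1, h2, h3⟩ := ih
    obtain ⟨a, ha, rfl⟩ := List.getElem_of_mem hf
    obtain ⟨b, hb, rfl⟩ := List.getElem_of_mem hg
    refine ⟨.or a b :: G, ⟨h2 ▸ ha, h2 ▸ hb, h1⟩, by simp [h2], ?_⟩
    intro v i hi
    cases i with
    | zero =>
      have e1 := h3 v a ha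
      have e2 := h3 v b hb
      simp only [evL, List.getElem?_cons_zero, Option.getD_some, Bool.or_eq_true,
        List.getElem_cons_zero]
      rw [e1, e2]
    | succ i => simpa [evL] using h3 v i (by simpa using hi)

end Pool.Agent.H257R4.TP
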