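import Pool.Agent.H257R4.TP.St

set_option autoImplicit false

/-!
# Monotonicity of `evP`
-/

namespace Pool.Agent.H257R4.TP

open H534R2.Gen Pool.Agent.H541R2

theorem mono : StMono := by
  intro X β β' hβ G
  induction G with
  | nil =>
    intro i h
    simp [evP] at h
  | cons g G ih =>
    intro i
    cases i with
    | succ i =>
      cases g <;> simpa [evP] using ih i
    | zero =>
      cases g with
      | inp x =>
        simp only [evP, List.getElem?_cons_zero, Option.getD_some]
        exact hβ _
      | cst c =>
        simp only [evP, List.getElem?_cons_zero, Option.getD_some]
        exact id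
      | an x y =>
        simp only [evP, List.getElem?_cons_zero, Option.getD_some, Bool.and_eq_true]
        rintro ⟨h1, h2⟩
        exact ⟨ih x h1, ih y h2⟩
      | or x y =>
        simp only [evP, List.getElem?_cons_zero, Option.getD_some, Bool.or_eq_true]
        rintro (h1 | h2)
        · exact Or.inl (ih x h1)
        · exact Or.inr (ih y h2)

end Pool.Agent.H257R4.TP
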