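import Pool.Agent.H257R4.TP.St
import Pool.Agent.H534R2.GenFlat
import Pool.Agent.H534R2.GenDir

set_option autoImplicit false

/-!
# Computations in rounds after a substitution of the variables
-/

namespace Pool.Agent.H257R4.TP

open H534R2.Gen Pool.Agent.H541R2

/-- substitute variables; positions with the value `none` are false -/
def sbs {X : Type} {n : ℕ} (ρ : Fin n → Option X) (N : DNet (Fin n)) : DNet X where
  size := N.size
  start := N.start
  acc := N.acc
  link := N.link
  wire a b x := ∃ p, ρ p = some x ∧ N.wire a b p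

theorem sbs_accepts {X : Type} {n : ℕ} (ρ : Fin n → Option X) (N : DNet (Fin n)) (v : X → Prop) :
    (sbs ρ N).Accepts v ↔ N.Accepts (fun p => ∃ x, ρ p = some x ∧ v x) := by
  have h : (sbs ρ N).Pass v = N.Pass (fun p => ∃ x, ρ p = some x ∧ v x) := by
    funext a b
    apply propext
    constructor
    · rintro (h | ⟨x, ⟨p, h1, h2⟩, h3⟩)
      · exact Or.inl h
      · exact Or.inr ⟨p, h2, x, h1, h3⟩
    · rintro (h | ⟨p, h1, x, h2, h3⟩)
      · exact Or.inl h
      · exact Or.inr ⟨x, ⟨p, h2, h1⟩, h3⟩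
  unfold DNet.Accepts
  rw [h]
  rfl

theorem rounds : StRounds := by
  intro M h r ℓ n hℓ hr ρ d w N hN hsize hdec
  let N' : ℕ → ℕ → (ℕ → ℕ → Prop) → DNet (PVar M h (r ^ 2)) := fun i k A => sbs ρ (N i k A)
  have hN' : Causal w N' := by
    intro i k A A' hA
    show sbs ρ (N i k A) = sbs ρ (N i k A')
    rw [hN i k A A' hA]
  have h4 := pyr_bound_dir (M := M) hℓ hr (flatTree d w N' d (fun _ _ => True)) (by
    apply flat_load hN' d le_rfl
    intro A' _
    rw [Nat.sub_self, ← Finset.range_eq_Ico]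
    exact hsize A') (by
    intro v
    obtain ⟨A, hA, hv⟩ := hdec v
    have hA' : ∀ i < d, ∀ k < w i, (A i k ↔ (N' i k A).Accepts v) := by
      intro i hi k hk
      rw [hA i hi k hk]
      exact (sbs_accepts ρ (N i k A) v).symm
    rw [flat_eval hN' v A hA' d le_rfl _ (by rw [Nat.sub_self]; intro j hj; omega), ← hv]
    exact sbs_accepts ρ (N d 0 A) v)
  have h5 := h4.trans (flat_cost d le_rfl _)
  rwa [Nat.sub_self, ← Finset.range_eq_Ico] at h5

end Pool.Agent.H257R4.TP
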