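import Pool.Agent.H257R4.TP.Mach3
import Pool.Agent.H257R4.TP.Mono
import Pool.Agent.H257R4.TP.Rnd
import Pool.Agent.H257R4.TP.MCg

set_option autoImplicit false

/-!
# Assembly, part 1: words of circuits
-/

namespace Pool.Agent.H257R4.TP

open H534R2.Gen Pool.Agent.H541R2

section word

variable {X : Type}

/-- the cells of the circuit with `k` cells of padding in front -/
def full (k : ℕ) (H : List (Gate X)) : List (Tag × Option X) :=
  List.replicate k (Tag.pa, none) ++ cells H

/-- the word of the bits `x` with the tags of the list `F` -/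
def wrd (F : List (Tag × Option X)) (x : Fin F.length → Bool) : List (Tag × Bool) :=
  List.ofFn (fun i => ((F.get i).1, x i))

theorem wrd_get (F : List (Tag × Option X)) (x : Fin F.length → Bool) (p : ℕ)
    (hp : p < F.length) : ((wrd F x)[p]?.map Prod.snd).getD false = x ⟨p, hp⟩ := by
  unfold wrd
  rw [List.getElem?_eq_getElem (by simpa using hp), List.getElem_ofFn]
  rfl

theorem wrd_get_none (F : List (Tag × Option X)) (x : Fin F.length → Bool) (p : ℕ)
    (hp : ¬ p < F.length) : ((wrd F x)[p]?.map Prod.snd).getD false = false := by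
  unfold wrd
  rw [List.getElem?_eq_none (by simpa using hp)]
  rfl

theorem wrd_fst (k : ℕ) (H : List (Gate X)) (x : Fin (full k H).length → Bool) :
    (wrd (full k H) x).map Prod.fst = List.replicate k Tag.pa ++ (cells H).map Prod.fst := by
  have h1 : List.replicate k Tag.pa ++ (cells H).map Prod.fst = (full k H).map Prod.fst := by
    unfold full
    rw [List.map_append, List.map_replicate]
  rw [h1]
  unfold wrd
  rw [List.map_ofFn]
  conv_rhs => rw [← List.ofFn_get (full k H), List.map_ofFn]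
  rfl

/-- the bits of the cells of the circuit -/
def bt (k : ℕ) (H : List (Gate X)) (x : Fin (full k H).length → Bool) (p : ℕ) : Bool :=
  (((wrd (full k H) x)[k + p]?).map Prod.snd).getD false

theorem wrd_mem {k : ℕ} {H : List (Gate X)} (hW : WF H) (hne : H ≠ [])
    (x : Fin (full k H).length → Bool) :
    wrd (full k H) x ∈ LL ↔ (evP (bt k H x) H)[0]?.getD false = true :=
  mach X H hW hne k _ (wrd_fst k H x)

theorem wrd_mono {k : ℕ} {H : List (Gate X)} (hW : WF H) (hne : H ≠ [])
    (x y : Fin (full k H).length → Bool) (hxy : ∀ i, x i = true → y i = true)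
    (hx : wrd (full k H) x ∈ LL) : wrd (full k H) y ∈ LL := by
  rw [wrd_mem hW hne] at hx ⊢
  refine mono X _ _ ?_ H 0 hx
  intro p hp
  unfold bt at hp ⊢
  by_cases h : k + p < (full k H).length
  · rw [wrd_get _ _ _ h] at hp ⊢
    exact hxy _ hp
  · rw [wrd_get_none _ _ _ h] at hp
    cases hp

theorem wrd_eval (hE : StEval) {k : ℕ} {H : List (Gate X)} (hW : WF H) (hne : H ≠ [])
    (v : X → Bool) (x : Fin (full k H).length → Bool)
    (hx : ∀ i z, ((full k H).get i).2 = some z → x i = v z) :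
    wrd (full k H) x ∈ LL ↔ (evL v H)[0]?.getD false = true := by
  rw [wrd_mem hW hne, hE X (bt k H x) v H]
  intro p t z hp
  have hlt : p < (cells H).length := by
    by_contra hlt
    rw [List.getElem?_eq_none (by omega)] at hp
    cases hp
  have hlen : k + p < (full k H).length := by
    unfold full
    rw [List.length_append, List.length_replicate]
    omega
  unfold bt
  rw [wrd_get _ _ _ hlen]
  apply hx
  have h1 : (full k H)[k + p]? = some (t, some z) := by
    unfold full
    rw [List.getElem?_append_right (by simp), List.length_replicate, Nat.add_sub_cancel_left, hp]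
  rw [List.getElem?_eq_getElem hlen] at h1
  have h2 := Option.some.inj h1
  show ((full k H)[k + p]).2 = some z
  rw [h2]

end word

section blocks

variable {M h q : ℕ}

/-- put the variables of one pyramid into the block `b` -/
def eb (hM : 0 < M) (b : ℕ) : PVar 1 h q → PVar M h q
  | .ax _ j u => .ax ⟨b % M, Nat.mod_lt _ hM⟩ j u
  | .rl _ i j u₁ u₂ u => .rl ⟨b % M, Nat.mod_lt _ hM⟩ i j u₁ u₂ u
  | .gl _ u => .gl ⟨b % M, Nat.mod_lt _ hM⟩ u

theorem eb_der (hM : 0 < M) (b : Fin M) (v : PVar M h q → Prop) (p : Pos h) (u : Fin q) :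
    Der v b p u ↔ Der (fun z => v (eb hM b.1 z)) 0 p u := by
  have hb : (⟨b.1 % M, Nat.mod_lt _ hM⟩ : Fin M) = b := Fin.ext (Nat.mod_eq_of_lt b.2)
  constructor
  · intro hd
    induction hd with
    | ax j u h1 =>
      refine Der.ax j u ?_
      show v (.ax ⟨b.1 % M, _⟩ j u)
      rw [hb]; exact h1
    | rl i j u₁ u₂ u h1 _ _ ih1 ih2 =>
      refine Der.rl i j u₁ u₂ u ?_ ih1 ih2
      show v (.rl ⟨b.1 % M, _⟩ i j u₁ u₂ u)
      rw [hb]; exact h1
  · intro hd
    induction hd with
    | ax j u h1 =>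
      refine Der.ax j u ?_
      have h2 : v (.ax ⟨b.1 % M, Nat.mod_lt _ hM⟩ j u) := h1
      rwa [hb] at h2
    | rl i j u₁ u₂ u h1 _ _ ih1 ih2 =>
      refine Der.rl i j u₁ u₂ u ?_ ih1 ih2
      have h2 : v (.rl ⟨b.1 % M, Nat.mod_lt _ hM⟩ i j u₁ u₂ u) := h1
      rwa [hb] at h2

theorem eb_fn (hM : 0 < M) (v : PVar M h q → Prop) :
    PyrFn v ↔ ∃ b < M, PyrFn (fun z => v (eb hM b z)) := by
  constructor
  · rintro ⟨b, u, h1, h2⟩
    have hb : (⟨b.1 % M, Nat.mod_lt _ hM⟩ : Fin M) = b := Fin.ext (Nat.mod_eq_of_lt b.2)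
    refine ⟨b.1, b.2, 0, u, ?_, (eb_der hM b v _ _).1 h2⟩
    show v (.gl ⟨b.1 % M, _⟩ u)
    rw [hb]; exact h1
  · rintro ⟨b, hb, b0, u, h1, h2⟩
    have hb' : (⟨b % M, Nat.mod_lt _ hM⟩ : Fin M) = ⟨b, hb⟩ := Fin.ext (Nat.mod_eq_of_lt hb)
    have h0 : b0 = 0 := Subsingleton.elim _ _
    subst h0
    refine ⟨⟨b, hb⟩, u, ?_, (eb_der hM ⟨b, hb⟩ v _ _).2 h2⟩
    have h3 : v (.gl ⟨b % M, Nat.mod_lt _ hM⟩ u) := h1
    rwa [hb'] at h3

end blocks

end Pool.Agent.H257R4.TP
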