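import Pool.Agent.H257R4.TP.Fin0

set_option autoImplicit false

/-!
# Assembly, part 2: the theorem
-/

namespace Pool.Agent.H257R4.TP

open H534R2.Gen Pool.Agent.H541R2

/-- monotonicity of a slice -/
def MonoSl (L : Set (List (Tag × Bool))) (n : ℕ) (t : Fin n → Tag) : Prop :=
  ∀ x y : Fin n → Bool, (∀ i, x i = true → y i = true) →
    List.ofFn (fun i => (t i, x i)) ∈ L → List.ofFn (fun i => (t i, y i)) ∈ L

/-- the lower bound for a slice -/
def LowSl (L : Set (List (Tag × Bool))) (n ℓ m : ℕ) (t : Fin n → Tag) : Prop :=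
  ∀ (d : ℕ) (w : ℕ → ℕ) (N : ℕ → ℕ → (ℕ → ℕ → Prop) → DNet (Fin n)),
    (∀ i k A A', (∀ j < i, ∀ k' < w j, (A j k' ↔ A' j k')) → N i k A = N i k A') →
    (∀ A, (∑ i ∈ Finset.range d, ∑ k ∈ Finset.range (w i), (N i k A).size)
      + (N d 0 A).size ≤ 2 ^ ℓ) →
    (∀ x : Fin n → Bool, ∃ A : ℕ → ℕ → Prop,
      (∀ i < d, ∀ k < w i, (A i k ↔ (N i k A).Accepts (fun p => x p = true))) ∧
      ((N d 0 A).Accepts (fun p => x p = true) ↔ List.ofFn (fun i => (t i, x i)) ∈ L)) →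
    m ≤ ∏ i ∈ Finset.range d, (w i + 1)

theorem triv_case (n : ℕ) : ∃ t : Fin n → Tag, MonoSl LL n t := by
  rcases Nat.eq_zero_or_pos n with rfl | hn
  · refine ⟨fun i => i.elim0, fun x y _ hx => ?_⟩
    have : x = y := Subsingleton.elim _ _
    rwa [← this]
  · let H : List (Gate Unit) := [.cst false]
    have hlen : (full (n - 1) H).length = n := by
      show (List.replicate (n - 1) _ ++ ([] ++ [_])).length = n
      simp
      omega
    obtain ⟨F, hF⟩ : ∃ F, F = full (n - 1) H := ⟨_, rfl⟩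
    obtain ⟨m, hm⟩ : ∃ m, m = F.length := ⟨_, rfl⟩
    have hnm : n = m := by rw [hm, hF, hlen]
    rw [hnm, hm, hF]
    refine ⟨fun i => ((full (n - 1) H).get i).1, fun x y hxy hx => ?_⟩
    exact wrd_mono (k := n - 1) (H := H) trivial (by simp [H]) x y hxy hx

theorem main_case (hE : StEval) (hL : StLen) (hB : StBlocks) (n ℓ M : ℕ) (hM : 0 < M)
    (hn : M * (2 * 186627 ^ 2 * (6 * ℓ ^ 2 + 6 * ℓ + 13) ^ 28) ≤ n) :
    ∃ t : Fin n → Tag, MonoSl LL n t ∧ LowSl LL n ℓ (M + 1) t := by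
  obtain ⟨h, hh⟩ : ∃ h, h = 6 * ℓ ^ 2 + 6 * ℓ + 12 := ⟨_, rfl⟩
  obtain ⟨r, hr⟩ : ∃ r, r = 6 * (h + 1) ^ 2 := ⟨_, rfl⟩
  have hh1 : 1 ≤ h := by omega
  have hhq : h ≤ r ^ 2 := by
    have h1 : h ≤ r := by rw [hr]; nlinarith
    have h2 : r ≤ r ^ 2 := by nlinarith [Nat.zero_le r]
    exact h1.trans h2
  obtain ⟨L, hMC, hmem, hlen⟩ := pyr_circuit (M := 1) hh1 hhq
  obtain ⟨j, hj, hLj⟩ := List.getElem_of_mem hmem
  obtain ⟨G, hWG, hGlen, hGev⟩ := mc_gates _ L hMC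
  obtain ⟨H, hWH, hHne, hHlen, hLoc, hHev⟩ := hB (PVar M h (r ^ 2)) _ G hWG j (by omega) M (eb hM)
  have hcells := hL _ _ H hLoc
  -- the length
  obtain ⟨a, ha⟩ : ∃ a, a = (6 * ℓ ^ 2 + 6 * ℓ + 13) ^ 14 := ⟨_, rfl⟩
  have ha1 : 1 ≤ a := by rw [ha]; exact Nat.one_le_pow _ _ (by omega)
  have hh13 : h + 1 = 6 * ℓ ^ 2 + 6 * ℓ + 13 := by omega
  have hLlen : L.length ≤ 186624 * a + 1 := by
    have e : 4 * (1 * (h + 1) ^ 2 * (r ^ 2) ^ 3) + 1 = 186624 * a + 1 := by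
      rw [hr, ha, ← hh13]; ring
    rw [← e]; exact hlen
  have hg : G.length + 2 ≤ 186627 * a := by rw [hGlen]; omega
  have hbound : (cells H).length ≤ n := by
    refine le_trans hcells (le_trans ?_ hn)
    have e2 : (6 * ℓ ^ 2 + 6 * ℓ + 13) ^ 28 = a * a := by rw [ha, ← pow_add]
    rw [e2, hHlen]
    have h1 : M * (G.length + 1) + 1 ≤ M * (186627 * a) := by
      have : M * (G.length + 2) ≤ M * (186627 * a) := Nat.mul_le_mul_left _ hg
      nlinarith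
    have h2 : 2 * (G.length + 1) + 1 ≤ 2 * (186627 * a) := by omega
    calc (M * (G.length + 1) + 1) * (2 * (G.length + 1) + 1)
        ≤ (M * (186627 * a)) * (2 * (186627 * a)) := Nat.mul_le_mul h1 h2
      _ = M * (2 * 186627 ^ 2 * (a * a)) := by ring
  obtain ⟨k, hk⟩ : ∃ k, n = k + (cells H).length := ⟨n - (cells H).length, by omega⟩
  have hfl : (full k H).length = n := by
    unfold full
    rw [List.length_append, List.length_replicate, hk]
  subst hfl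
  refine ⟨fun i => ((full k H).get i).1, fun x y hxy hx => wrd_mono hWH hHne x y hxy hx, ?_⟩
  intro d w N hN hsize hdec
  classical
  refine rounds M h r ℓ _ (by omega) hr (fun i => ((full k H).get i).2) d w N hN hsize ?_
  intro v
  set x : Fin (full k H).length → Bool :=
    fun i => decide (∃ z, ((full k H).get i).2 = some z ∧ v z) with hxdef
  have hx : (fun p => x p = true) = fun p => ∃ z, ((full k H).get p).2 = some z ∧ v z := by
    funext p
    rw [hxdef]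
    exact propext decide_eq_true_iff
  obtain ⟨A, hA, hacc⟩ := hdec x
  rw [hx] at hacc
  refine ⟨A, fun i hi k' hk' => ?_, ?_⟩
  · have := hA i hi k' hk'
    rwa [hx] at this
  · rw [hacc]
    have h1 : wrd (full k H) x ∈ LL ↔ (evL (fun z => decide (v z)) H)[0]?.getD false = true := by
      apply wrd_eval hE hWH hHne
      intro i z hz
      rw [hxdef]
      apply decide_eq_decide.2
      constructor
      · rintro ⟨z', hz', hv⟩
        rw [hz] at hz'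
        cases hz'
        exact hv
      · intro hv
        exact ⟨z, hz, hv⟩
    show wrd (full k H) x ∈ LL ↔ _
    rw [h1, hHev, eb_fn hM]
    constructor
    · rintro ⟨b, hb, hb2⟩
      refine ⟨b, hb, ?_⟩
      rw [hGev _ j hj, hLj] at hb2
      simpa using hb2
    · rintro ⟨b, hb, hb2⟩
      refine ⟨b, hb, ?_⟩
      rw [hGev _ j hj, hLj]
      simpa using hb2

theorem fin_case (hE : StEval) (hL : StLen) (hB : StBlocks) : ∃ C : ℕ, ∀ n ℓ : ℕ,
    ∃ t : Fin n → Tag, MonoSl LL n t ∧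
      ∀ (d : ℕ) (w : ℕ → ℕ) (N : ℕ → ℕ → (ℕ → ℕ → Prop) → DNet (Fin n)),
        (∀ i k A A', (∀ j < i, ∀ k' < w j, (A j k' ↔ A' j k')) → N i k A = N i k A') →
        (∀ A, (∑ i ∈ Finset.range d, ∑ k ∈ Finset.range (w i), (N i k A).size)
          + (N d 0 A).size ≤ 2 ^ ℓ) →
        (∀ x : Fin n → Bool, ∃ A : ℕ → ℕ → Prop,
          (∀ i < d, ∀ k < w i, (A i k ↔ (N i k A).Accepts (fun p => x p = true))) ∧
          ((N d 0 A).Accepts (fun p => x p = true) ↔ List.ofFn (fun i => (t i, x i)) ∈ LL)) →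
        n ≤ C * (ℓ + 1) ^ 56 * ∏ i ∈ Finset.range d, (w i + 1) := by
  obtain ⟨C, hC⟩ : ∃ C : ℕ, C = 2 * 186627 ^ 2 * 13 ^ 28 := ⟨_, rfl⟩
  have hC0 : 0 < C := by rw [hC]; norm_num
  have hCB : ∀ ℓ : ℕ, 2 * 186627 ^ 2 * (6 * ℓ ^ 2 + 6 * ℓ + 13) ^ 28 ≤ C * (ℓ + 1) ^ 56 := by
    intro ℓ
    have h1 : 6 * ℓ ^ 2 + 6 * ℓ + 13 ≤ 13 * (ℓ + 1) ^ 2 := by nlinarith
    have h2 := Nat.pow_le_pow_left h1 28
    rw [mul_pow 13, ← pow_mul] at h2
    rw [hC, mul_assoc (2 * 186627 ^ 2)]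
    exact Nat.mul_le_mul_left _ h2
  clear hC
  refine ⟨C, fun n ℓ => ?_⟩
  obtain ⟨B, hBdef⟩ : ∃ B, B = C * (ℓ + 1) ^ 56 := ⟨_, rfl⟩
  have hB0 : 0 < B := by rw [hBdef]; exact Nat.mul_pos hC0 (Nat.pow_pos (by omega))
  have hBle : 2 * 186627 ^ 2 * (6 * ℓ ^ 2 + 6 * ℓ + 13) ^ 28 ≤ B := by
    rw [hBdef]; exact hCB ℓ
  rcases Nat.eq_zero_or_pos (n / B) with h0 | h0
  · obtain ⟨t, ht⟩ := triv_case n
    refine ⟨t, ht, fun d w N _ _ _ => ?_⟩
    have h1 : n < B := by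
      rcases Nat.div_eq_zero_iff.1 h0 with h | h
      · omega
      · exact h
    have h2 : 1 ≤ ∏ i ∈ Finset.range d, (w i + 1) := Finset.one_le_prod' (fun i _ => by omega)
    rw [← hBdef]
    nlinarith
  · obtain ⟨t, ht, hlow⟩ := main_case hE hL hB n ℓ (n / B) h0 (by
      calc n / B * (2 * 186627 ^ 2 * (6 * ℓ ^ 2 + 6 * ℓ + 13) ^ 28) ≤ n / B * B :=
            Nat.mul_le_mul_left _ hBle
        _ ≤ n := Nat.div_mul_le_self n B)
    refine ⟨t, ht, fun d w N h1 h2 h3 => ?_⟩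
    have h4 := hlow d w N h1 h2 h3
    rw [← hBdef]
    have h5 : n < B * (n / B + 1) := by
      have := Nat.lt_mul_div_succ n hB0
      simpa using this
    exact h5.le.trans (Nat.mul_le_mul_left _ h4)

end Pool.Agent.H257R4.TP
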