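import Pool.Agent.H257R4.TP.St

set_option autoImplicit false

namespace Pool.Agent.H257R4.TP

open H534R2.Gen Pool.Agent.H541R2

theorem len_le : StLen := by
  intro X B G
  induction G with
  | nil => intro _; simp [cells]
  | cons g G ih =>
    intro h
    have hl : (cells (g :: G)).length = (cells G).length + g.block.length := by
      show (cells G ++ g.block).length = _
      rw [List.length_append]
    rw [hl, List.length_cons, Nat.add_mul, Nat.one_mul]
    cases g with
    | inp x =>
      have h1 : ((Gate.inp x).block : List (Tag × Option X)).length = 1 := rfl
      have := ih h
      omega
    | cst c =>
      have h1 : ((Gate.cst c).block : List (Tag × Option X)).length = 1 := by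
        cases c <;> rfl
      have := ih h
      omega
    | an x y =>
      obtain ⟨hx, hy, h2⟩ := h
      have h1 : ((Gate.an x y).block : List (Tag × Option X)).length = 1 + (x + 1) + (y + 1) := by
        simp only [Gate.block, List.length_cons, List.length_append, List.length_replicate]
        omega
      have := ih h2
      omega
    | or x y =>
      obtain ⟨hx, hy, h2⟩ := h
      have h1 : ((Gate.or x y).block : List (Tag × Option X)).length = 1 + (x + 1) + (y + 1) := by
        simp only [Gate.block, List.length_cons, List.length_append, List.length_replicate]
        omega
      have := ih h2
      omega

end Pool.Agent.H257R4.TP
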