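import Pool.Agent.H257R4.TP.St

set_option autoImplicit false

/-!
# The automaton evaluates the circuit
-/

namespace Pool.Agent.H257R4.TP

open H534R2.Gen Pool.Agent.H541R2

/-- the simplified step -/
def ss (w : List (Tag × Bool)) (c : St × ℕ × List Sy) : St × ℕ × List Sy :=
  ((dl c.1 (rd w c.2.1) c.2.2.head?).1, mv w.length (dl c.1 (rd w c.2.1) c.2.2.head?).2.1 c.2.1,
    (dl c.1 (rd w c.2.1) c.2.2.head?).2.2 ++ c.2.2.tail)

def emb (c : St × ℕ × List Sy) : St × (Fin 1 → ℕ) × List Sy := (c.1, fun _ => c.2.1, c.2.2)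

theorem step_emb (w : List (Tag × Bool)) (c : St × ℕ × List Sy) :
    pdaStep del w (emb c) = emb (ss w c) := rfl

theorem iter_emb (w : List (Tag × Bool)) (m : ℕ) (c : St × ℕ × List Sy) :
    (pdaStep del w)^[m] (emb c) = emb ((ss w)^[m] c) := by
  induction m generalizing c with
  | zero => rfl
  | succ m ih => rw [Function.iterate_succ_apply, Function.iterate_succ_apply, step_emb, ih]

/-- Reachability. -/
def Rch (w : List (Tag × Bool)) (c c' : St × ℕ × List Sy) : Prop := ∃ m, (ss w)^[m] c = c'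

theorem Rch.refl {w : List (Tag × Bool)} (c : St × ℕ × List Sy) : Rch w c c := ⟨0, rfl⟩

theorem Rch.trans {w : List (Tag × Bool)} {a b c : St × ℕ × List Sy} (h1 : Rch w a b)
    (h2 : Rch w b c) : Rch w a c := by
  obtain ⟨m, rfl⟩ := h1
  obtain ⟨m', rfl⟩ := h2
  exact ⟨m' + m, by rw [Function.iterate_add_apply]⟩

theorem Rch.one {w : List (Tag × Bool)} {a b : St × ℕ × List Sy} (h : ss w a = b) : Rch w a b :=
  ⟨1, h⟩

theorem keep (γ : List Sy) : γ.head?.toList ++ γ.tail = γ := by cases γ <;> rfl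

section steps

variable {w : List (Tag × Bool)} {p : ℕ} {t : Tag} {b : Bool} {γ : List Sy}

theorem lt_of_at (h : w[p]? = some (t, b)) : p < w.length := by
  by_contra hlt
  rw [List.getElem?_eq_none (by omega)] at h
  cases h

theorem mv2 (h : p < w.length) : mv w.length 2 (p + 1) = p + 1 + 1 := by
  unfold mv
  have : ¬ ((2 : Fin 3) = 0) := by decide
  have h2 : ¬ ((2 : Fin 3) = 1) := by decide
  rw [if_neg this, if_neg h2]
  omega

theorem mv0 (n p : ℕ) : mv n 0 (p + 1) = p := by simp [mv]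

theorem mv1 (n p : ℕ) : mv n 1 p = p := by simp [mv]

theorem rd1 (w : List (Tag × Bool)) (p : ℕ) : rd w (p + 1) = (false, w[p]?) := by simp [rd]

theorem s_ev_inp (h : w[p]? = some (.inp, b)) : Rch w (.ev, p + 1, γ) (.ret b, p + 1, γ) := by
  apply Rch.one; simp only [ss, rd1, h, dl, mv1, keep]

theorem s_ev_tt (h : w[p]? = some (.tt, b)) : Rch w (.ev, p + 1, γ) (.ret true, p + 1, γ) := by
  apply Rch.one; simp only [ss, rd1, h, dl, mv1, keep]

theorem s_ev_ff (h : w[p]? = some (.ff, b)) : Rch w (.ev, p + 1, γ) (.ret false, p + 1, γ) := by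
  apply Rch.one; simp only [ss, rd1, h, dl, mv1, keep]

theorem s_ev_bin (h : w[p]? = some (t, b)) (ht : t = .an ∨ t = .or) :
    Rch w (.ev, p + 1, γ) (.p1, p + 1 + 1, .f1 :: γ) := by
  apply Rch.one
  rcases ht with rfl | rfl <;>
    simp only [ss, rd1, h, dl, mv2 (lt_of_at h), keep, List.cons_append]

theorem s_p1_pa (h : w[p]? = some (.pa, b)) :
    Rch w (.p1, p + 1, γ) (.p1, p + 1 + 1, .d :: γ) := by
  apply Rch.one; simp only [ss, rd1, h, dl, mv2 (lt_of_at h), keep, List.cons_append]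

theorem s_p1_pb (h : w[p]? = some (.pb, b)) : Rch w (.p1, p + 1, γ) (.q1, p, γ) := by
  apply Rch.one; simp only [ss, rd1, h, dl, mv0, keep]

theorem s_q1_pa (h : w[p]? = some (.pa, b)) : Rch w (.q1, p + 1, γ) (.q1, p, .e :: γ) := by
  apply Rch.one
  simp only [ss, rd1, h, dl, Tag.mk, mv0, keep, List.cons_append, Bool.false_eq_true, if_false]

theorem s_q1_mk (h : w[p]? = some (t, b)) (ht : t.mk = true) :
    Rch w (.q1, p + 1, γ) (.go, p + 1, γ) := by
  apply Rch.one
  simp only [ss, rd1, h, dl, ht, mv1, keep, if_true]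

theorem s_go_e : Rch w (.go, p + 1, .e :: γ) (.gl, p, γ) := by
  apply Rch.one
  simp only [ss, rd1, dl, mv0, List.head?_cons, List.tail_cons, List.nil_append]

theorem s_go_d : Rch w (.go, p + 1, .d :: γ) (.ev, p + 1, .d :: γ) := by
  apply Rch.one
  simp [ss, rd1, dl, mv1]

theorem s_gl_mk (h : w[p]? = some (t, b)) (ht : t.mk = true) :
    Rch w (.gl, p + 1, γ) (.go, p + 1, γ) := by
  apply Rch.one
  simp only [ss, rd1, h, dl, ht, mv1, keep, if_true]

theorem s_gl_pa (h : w[p]? = some (t, b)) (ht : t.mk = false) :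
    Rch w (.gl, p + 1, γ) (.gl, p, γ) := by
  apply Rch.one
  simp only [ss, rd1, h, dl, ht, mv0, keep, Bool.false_eq_true, if_false]

theorem s_ret_d {v : Bool} (h : p < w.length) :
    Rch w (.ret v, p + 1, .d :: γ) (.rr v, p + 1 + 1, γ) := by
  apply Rch.one
  simp only [ss, rd1, dl, mv2 h, List.head?_cons, List.tail_cons, List.nil_append]

theorem s_rr_mk {v : Bool} (h : w[p]? = some (t, b)) (ht : t.mk = true) :
    Rch w (.rr v, p + 1, γ) (.ret v, p + 1, γ) := by
  apply Rch.one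
  simp only [ss, rd1, h, dl, ht, mv1, keep, if_true]

theorem s_rr_pa {v : Bool} (h : w[p]? = some (t, b)) (ht : t.mk = false) :
    Rch w (.rr v, p + 1, γ) (.rr v, p + 1 + 1, γ) := by
  apply Rch.one
  simp only [ss, rd1, h, dl, ht, mv2 (lt_of_at h), keep, Bool.false_eq_true, if_false]

theorem s_ret_f1_go {v : Bool} (h : w[p]? = some (t, b)) (hv : v = decide (t = .an)) :
    Rch w (.ret v, p + 1, .f1 :: γ) (.p2a, p + 1 + 1, .f2 :: γ) := by
  apply Rch.one
  simp only [ss, rd1, h, dl, List.head?_cons, List.tail_cons]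
  rw [if_pos hv]
  simp only [mv2 (lt_of_at h), List.cons_append, List.nil_append]

theorem s_ret_f1_ret {v : Bool} (h : w[p]? = some (t, b)) (hv : ¬ v = decide (t = .an)) :
    Rch w (.ret v, p + 1, .f1 :: γ) (.ret v, p + 1, γ) := by
  apply Rch.one
  simp only [ss, rd1, h, dl, List.head?_cons, List.tail_cons]
  rw [if_neg hv]
  simp only [mv1, List.nil_append]

theorem s_ret_f2 {v : Bool} : Rch w (.ret v, p + 1, .f2 :: γ) (.ret v, p + 1, γ) := by
  apply Rch.one
  simp only [ss, rd1, dl, mv1, List.head?_cons, List.tail_cons, List.nil_append]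

theorem s_p2a_pa (h : w[p]? = some (.pa, b)) :
    Rch w (.p2a, p + 1, γ) (.p2a, p + 1 + 1, γ) := by
  apply Rch.one; simp only [ss, rd1, h, dl, mv2 (lt_of_at h), keep]

theorem s_p2a_pb (h : w[p]? = some (.pb, b)) :
    Rch w (.p2a, p + 1, γ) (.p2, p + 1 + 1, .d :: γ) := by
  apply Rch.one; simp only [ss, rd1, h, dl, mv2 (lt_of_at h), keep, List.cons_append]

theorem s_p2_pb (h : w[p]? = some (.pb, b)) :
    Rch w (.p2, p + 1, γ) (.p2, p + 1 + 1, .d :: γ) := by
  apply Rch.one; simp only [ss, rd1, h, dl, mv2 (lt_of_at h), keep, List.cons_append]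

theorem s_p2_end (h : ∀ b, w[p]? ≠ some (.pb, b)) : Rch w (.p2, p + 1, γ) (.q2, p, γ) := by
  apply Rch.one
  rcases hw : w[p]? with _ | ⟨t, b⟩
  · simp only [ss, rd1, hw, dl, mv0, keep]
  · cases t
    case pb => exact absurd hw (h b)
    all_goals simp only [ss, rd1, hw, dl, mv0, keep]

theorem s_q2_mk (h : w[p]? = some (t, b)) (ht : t.mk = true) :
    Rch w (.q2, p + 1, γ) (.go, p + 1, γ) := by
  apply Rch.one
  simp only [ss, rd1, h, dl, ht, mv1, keep, if_true]

theorem s_q2_pb (h : w[p]? = some (.pb, b)) : Rch w (.q2, p + 1, γ) (.q2, p, .e :: γ) := by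
  apply Rch.one
  simp only [ss, rd1, h, dl, Tag.mk, mv0, keep, List.cons_append, Bool.false_eq_true, if_false,
    if_true]

theorem s_q2_pa (h : w[p]? = some (.pa, b)) : Rch w (.q2, p + 1, γ) (.q2, p, γ) := by
  apply Rch.one
  simp only [ss, rd1, h, dl, Tag.mk, mv0, keep, Bool.false_eq_true, if_false, reduceCtorEq]

theorem s_ql_mk (h : w[p]? = some (t, b)) (ht : t.mk = true) :
    Rch w (.qL, p + 1, γ) (.ev, p + 1, γ) := by
  apply Rch.one
  simp only [ss, rd1, h, dl, ht, mv1, keep, if_true]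

theorem s_ql_pa (h : w[p]? = some (t, b)) (ht : t.mk = false) :
    Rch w (.qL, p + 1, γ) (.qL, p, γ) := by
  apply Rch.one
  simp only [ss, rd1, h, dl, ht, mv0, keep, Bool.false_eq_true, if_false]

theorem s_q0_0 : Rch w (.q0, 0, γ) (.q0, 1, γ) := by
  apply Rch.one
  simp [ss, rd, dl, mv, keep]

theorem s_q0 (h : w[p]? = some (t, b)) : Rch w (.q0, p + 1, γ) (.q0, p + 1 + 1, γ) := by
  apply Rch.one
  simp only [ss, rd1, h, dl, mv2 (lt_of_at h), keep]

theorem s_q0_end (h : w[p]? = none) : Rch w (.q0, p + 1, γ) (.qL, p, γ) := by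
  apply Rch.one
  simp only [ss, rd1, h, dl, mv0, keep]

theorem s_ret_end {v : Bool} :
    Rch w (.ret v, p + 1, []) (if v then .acc else .dead, p + 1, []) := by
  apply Rch.one
  simp only [ss, rd1, dl, mv1, List.head?_nil, List.tail_nil, List.nil_append]

end steps

end Pool.Agent.H257R4.TP
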