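import Pool.Agent.H257R4.TP.Mach

set_option autoImplicit false

/-!
# The automaton evaluates the circuit: loops and the recursion
-/

namespace Pool.Agent.H257R4.TP

open H534R2.Gen Pool.Agent.H541R2

section loops

variable {w : List (Tag × Bool)}

theorem rep_cons (a : Sy) (x : ℕ) (γ : List Sy) :
    List.replicate x a ++ a :: γ = List.replicate (x + 1) a ++ γ := by
  rw [List.replicate_succ']; simp

theorem loopR_push (S : St) (a : Sy) (t₀ : Tag)
    (hs : ∀ p b γ, w[p]? = some (t₀, b) → Rch w (S, p + 1, γ) (S, p + 1 + 1, a :: γ)) :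
    ∀ (x p : ℕ) (γ : List Sy), (∀ j < x, ∃ b, w[p + j]? = some (t₀, b)) →
      Rch w (S, p + 1, γ) (S, p + x + 1, List.replicate x a ++ γ) := by
  intro x
  induction x with
  | zero => intro p γ _; exact Rch.refl _
  | succ x ih =>
    intro p γ h
    obtain ⟨b, hb⟩ := h 0 (by omega)
    have h2 := ih (p + 1) (a :: γ) (fun j hj => by
      obtain ⟨b, hb⟩ := h (j + 1) (by omega)
      exact ⟨b, by rwa [show p + 1 + j = p + (j + 1) by omega]⟩)
    rw [rep_cons, show p + 1 + x + 1 = p + (x + 1) + 1 by omega] at h2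
    exact (hs p b γ hb).trans h2

theorem loopR_keep (S : St) (P : Tag → Prop)
    (hs : ∀ p t b γ, P t → w[p]? = some (t, b) → Rch w (S, p + 1, γ) (S, p + 1 + 1, γ)) :
    ∀ (x p : ℕ) (γ : List Sy), (∀ j < x, ∃ t b, P t ∧ w[p + j]? = some (t, b)) →
      Rch w (S, p + 1, γ) (S, p + x + 1, γ) := by
  intro x
  induction x with
  | zero => intro p γ _; exact Rch.refl _
  | succ x ih =>
    intro p γ h
    obtain ⟨t, b, ht, hb⟩ := h 0 (by omega)
    have h2 := ih (p + 1) γ (fun j hj => by
      obtain ⟨t, b, ht, hb⟩ := h (j + 1) (by omega)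
      exact ⟨t, b, ht, by rwa [show p + 1 + j = p + (j + 1) by omega]⟩)
    rw [show p + 1 + x + 1 = p + (x + 1) + 1 by omega] at h2
    exact (hs p t b γ ht hb).trans h2

theorem loopL_push (S : St) (a : Sy) (t₀ : Tag)
    (hs : ∀ p b γ, w[p]? = some (t₀, b) → Rch w (S, p + 1, γ) (S, p, a :: γ)) :
    ∀ (x p : ℕ) (γ : List Sy), (∀ j < x, ∃ b, w[p + j]? = some (t₀, b)) →
      Rch w (S, p + x, γ) (S, p, List.replicate x a ++ γ) := by
  intro x
  induction x with
  | zero => intro p γ _; exact Rch.refl _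
  | succ x ih =>
    intro p γ h
    obtain ⟨b, hb⟩ := h x (by omega)
    have h2 := ih p (a :: γ) (fun j hj => h j (by omega))
    rw [rep_cons] at h2
    exact (hs (p + x) b γ hb).trans h2

theorem loopL_keep (S : St) (P : Tag → Prop)
    (hs : ∀ p t b γ, P t → w[p]? = some (t, b) → Rch w (S, p + 1, γ) (S, p, γ)) :
    ∀ (x p : ℕ) (γ : List Sy), (∀ j < x, ∃ t b, P t ∧ w[p + j]? = some (t, b)) →
      Rch w (S, p + x, γ) (S, p, γ) := by
  intro x
  induction x with
  | zero => intro p γ _; exact Rch.refl _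
  | succ x ih =>
    intro p γ h
    obtain ⟨t, b, ht, hb⟩ := h x (by omega)
    exact (hs (p + x) t b γ ht hb).trans (ih p γ (fun j hj => h j (by omega)))

end loops

section layout

variable {X : Type} {w : List (Tag × Bool)} {k : ℕ}

/-- the word `w` contains the cells of `H` from cell `k` on -/
def Cv (w : List (Tag × Bool)) (k : ℕ) (H : List (Gate X)) : Prop :=
  ∀ p t o, (cells H)[p]? = some (t, o) → ∃ b, w[k + p]? = some (t, b)

/-- the first cell after the cells of `H` -/
def cur (k : ℕ) (H : List (Gate X)) : ℕ := k + (cells H).length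

/-- a gate begins at the cell `p` -/
def MkAt (w : List (Tag × Bool)) (p : ℕ) : Prop := ∃ t b, w[p]? = some (t, b) ∧ t.mk = true

theorem Cv.tail {g : Gate X} {H : List (Gate X)} (h : Cv w k (g :: H)) : Cv w k H := by
  intro p t o hp
  refine h p t o ?_
  have hlt : p < (cells H).length := by
    by_contra hlt
    rw [List.getElem?_eq_none (by omega)] at hp
    cases hp
  show (cells H ++ g.block)[p]? = _
  rw [List.getElem?_append_left hlt, hp]

theorem Cv.drop {H : List (Gate X)} (h : Cv w k H) (x : ℕ) : Cv w k (H.drop x) := by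
  induction x generalizing H with
  | zero => exact h
  | succ x ih =>
    cases H with
    | nil => exact h
    | cons g H => exact ih h.tail

theorem Cv.at {g : Gate X} {H : List (Gate X)} (h : Cv w k (g :: H)) (j : ℕ)
    (hj : j < g.block.length) : ∃ b, w[cur k H + j]? = some ((g.block[j]).1, b) := by
  obtain ⟨b, hb⟩ := h ((cells H).length + j) (g.block[j]).1 (g.block[j]).2 (by
    show (cells H ++ g.block)[(cells H).length + j]? = _
    rw [List.getElem?_append_right (by omega), Nat.add_sub_cancel_left,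
      List.getElem?_eq_getElem hj])
  exact ⟨b, by rwa [cur, Nat.add_assoc]⟩

theorem block_form (g : Gate X) : ∃ t o R, g.block = (t, o) :: R ∧ t.mk = true ∧
    ∀ (j : ℕ) (hj : j < R.length), (R[j]).1.mk = false := by
  have key : ∀ x y : ℕ, ∀ (j : ℕ) (hj : j < (List.replicate (x + 1) ((Tag.pa, none) : Tag × Option X) ++
      List.replicate (y + 1) (Tag.pb, none)).length),
      ((List.replicate (x + 1) ((Tag.pa, none) : Tag × Option X) ++
        List.replicate (y + 1) (Tag.pb, none))[j]).1.mk = false := by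
    intro x y j hj
    have hm := List.getElem_mem hj
    rw [List.mem_append, List.mem_replicate, List.mem_replicate] at hm
    rcases hm with hm | hm <;> rw [hm.2] <;> rfl
  cases g with
  | inp x => exact ⟨.inp, some x, [], rfl, rfl, fun j hj => absurd hj (Nat.not_lt_zero _)⟩
  | cst c =>
    cases c
    · exact ⟨.ff, none, [], rfl, rfl, fun j hj => absurd hj (Nat.not_lt_zero _)⟩
    · exact ⟨.tt, none, [], rfl, rfl, fun j hj => absurd hj (Nat.not_lt_zero _)⟩
  | an x y => exact ⟨.an, none, _, rfl, rfl, key x y⟩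
  | or x y => exact ⟨.or, none, _, rfl, rfl, key x y⟩

theorem Cv.mkAt {g : Gate X} {H : List (Gate X)} (h : Cv w k (g :: H)) : MkAt w (cur k H) := by
  obtain ⟨t, o, R, hb, ht, -⟩ := block_form g
  obtain ⟨b, hb'⟩ := h.at 0 (by rw [hb]; simp)
  refine ⟨t, b, ?_, ht⟩
  simpa [hb] using hb'

theorem Cv.mkAt_drop {H : List (Gate X)} (h : Cv w k H) {x : ℕ} (hx : x < H.length) :
    MkAt w (cur k (H.drop (x + 1))) := by
  have h1 := h.drop x
  rw [List.drop_eq_getElem_cons hx] at h1
  exact h1.mkAt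

/-- the cells between two gates -/
theorem Cv.between {g : Gate X} {H : List (Gate X)} (h : Cv w k (g :: H)) :
    ∃ r, cur k (g :: H) = cur k H + 1 + r ∧
      ∀ j < r, ∃ t b, t.mk = false ∧ w[cur k H + 1 + j]? = some (t, b) := by
  obtain ⟨t, o, R, hb, -, hR⟩ := block_form g
  refine ⟨R.length, ?_, ?_⟩
  · show k + (cells H ++ g.block).length = _
    rw [List.length_append, hb, List.length_cons, cur]; omega
  · intro j hj
    obtain ⟨b, hb'⟩ := h.at (j + 1) (by rw [hb, List.length_cons]; omega)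
    refine ⟨(R[j]).1, b, hR j hj, ?_⟩
    rw [show cur k H + 1 + j = cur k H + (j + 1) by omega, hb']
    simp [hb]

theorem left1 {g : Gate X} {H : List (Gate X)} (h : Cv w k (g :: H)) (γ : List Sy) :
    Rch w (.go, cur k (g :: H) + 1, .e :: γ) (.go, cur k H + 1, γ) := by
  obtain ⟨r, hr, hcell⟩ := h.between
  obtain ⟨t, b, hm, ht⟩ := h.mkAt
  have h2 := loopL_keep (w := w) .gl (fun t => t.mk = false)
    (fun p t b γ ht hp => s_gl_pa hp ht) r (cur k H + 1) γ hcell
  rw [← hr] at h2
  exact (s_go_e.trans h2).trans (s_gl_mk hm ht)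

theorem leftx (x : ℕ) : ∀ (H : List (Gate X)) (γ : List Sy), Cv w k H → x < H.length →
    Rch w (.go, cur k H + 1, List.replicate (x + 1) .e ++ γ)
      (.go, cur k (H.drop (x + 1)) + 1, γ) := by
  induction x with
  | zero =>
    intro H γ h hx
    cases H with
    | nil => exact absurd hx (Nat.not_lt_zero _)
    | cons g H => exact left1 h γ
  | succ x ih =>
    intro H γ h hx
    cases H with
    | nil => exact absurd hx (Nat.not_lt_zero _)
    | cons g H =>
      have h1 := left1 h (List.replicate (x + 1) .e ++ γ)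
      rw [List.length_cons] at hx
      exact h1.trans (ih H γ h.tail (by omega))

theorem right1 {g : Gate X} {H : List (Gate X)} (h : Cv w k (g :: H))
    (hm : MkAt w (cur k (g :: H))) (v : Bool) (γ : List Sy) :
    Rch w (.ret v, cur k H + 1, .d :: γ) (.ret v, cur k (g :: H) + 1, γ) := by
  obtain ⟨r, hr, hcell⟩ := h.between
  obtain ⟨t, b, hm0, -⟩ := h.mkAt
  obtain ⟨t', b', hm', ht'⟩ := hm
  have h2 := loopR_keep (w := w) (.rr v) (fun t => t.mk = false)
    (fun p t b γ ht hp => s_rr_pa hp ht) r (cur k H + 1) γ hcell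
  rw [← hr] at h2
  exact ((s_ret_d (lt_of_at hm0)).trans h2).trans (s_rr_mk hm' ht')

theorem rightx (v : Bool) (x : ℕ) : ∀ (H : List (Gate X)) (γ : List Sy), Cv w k H →
    x < H.length → MkAt w (cur k H) →
    Rch w (.ret v, cur k (H.drop (x + 1)) + 1, List.replicate (x + 1) .d ++ γ)
      (.ret v, cur k H + 1, γ) := by
  induction x with
  | zero =>
    intro H γ h hx hm
    cases H with
    | nil => exact absurd hx (Nat.not_lt_zero _)
    | cons g H => exact right1 h hm v γ
  | succ x ih =>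
    intro H γ h hx hm
    cases H with
    | nil => exact absurd hx (Nat.not_lt_zero _)
    | cons g H =>
      rw [List.length_cons] at hx
      have h1 := ih H (.d :: γ) h.tail (by omega) h.mkAt
      rw [rep_cons] at h1
      exact h1.trans (right1 h hm v γ)

/-- a binary gate -/
theorem bin {t : Tag} (ht : t = .an ∨ t = .or) {H : List (Gate X)} (hH : Cv w k H) {x y : ℕ}
    (hx : x < H.length) (hy : y < H.length) (hm : ∃ b, w[cur k H]? = some (t, b))
    (ha : ∀ j < x + 1, ∃ b, w[cur k H + 1 + j]? = some (.pa, b))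
    (hb : ∀ j < y + 1, ∃ b, w[cur k H + 1 + (x + 1) + j]? = some (.pb, b))
    (hn : ∀ b, w[cur k H + 1 + (x + 1) + (y + 1)]? ≠ some (.pb, b)) (vx vy : Bool)
    (ihx : ∀ γ, Rch w (.ev, cur k (H.drop (x + 1)) + 1, γ)
      (.ret vx, cur k (H.drop (x + 1)) + 1, γ))
    (ihy : ∀ γ, Rch w (.ev, cur k (H.drop (y + 1)) + 1, γ)
      (.ret vy, cur k (H.drop (y + 1)) + 1, γ)) (γ : List Sy) :
    Rch w (.ev, cur k H + 1, γ)
      (.ret (if vx = decide (t = .an) then vy else vx), cur k H + 1, γ) := by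
  obtain ⟨b, hmb⟩ := hm
  have htm : t.mk = true := by rcases ht with rfl | rfl <;> rfl
  have hM : MkAt w (cur k H) := ⟨t, b, hmb, htm⟩
  obtain ⟨b0, hpb0⟩ := hb 0 (by omega)
  rw [Nat.add_zero] at hpb0
  -- evaluate the first operand
  have a1 : Rch w (.ev, cur k H + 1, γ) (.p1, cur k H + 1 + 1, .f1 :: γ) := s_ev_bin hmb ht
  have a2 : Rch w (.p1, cur k H + 1 + 1, .f1 :: γ)
      (.p1, cur k H + 1 + (x + 1) + 1, List.replicate (x + 1) .d ++ .f1 :: γ) :=
    loopR_push .p1 .d .pa (fun p b γ hp => s_p1_pa hp) (x + 1) (cur k H + 1) _ ha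
  have a3 : Rch w (.p1, cur k H + 1 + (x + 1) + 1, List.replicate (x + 1) .d ++ .f1 :: γ)
      (.q1, cur k H + 1 + (x + 1), List.replicate (x + 1) .d ++ .f1 :: γ) := s_p1_pb hpb0
  have a4 : Rch w (.q1, cur k H + 1 + (x + 1), List.replicate (x + 1) .d ++ .f1 :: γ)
      (.q1, cur k H + 1, List.replicate (x + 1) .e ++ (List.replicate (x + 1) .d ++ .f1 :: γ)) :=
    loopL_push .q1 .e .pa (fun p b γ hp => s_q1_pa hp) (x + 1) (cur k H + 1) _ ha
  have a5 : Rch w
      (.q1, cur k H + 1, List.replicate (x + 1) .e ++ (List.replicate (x + 1) .d ++ .f1 :: γ))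
      (.go, cur k H + 1, List.replicate (x + 1) .e ++ (List.replicate (x + 1) .d ++ .f1 :: γ)) :=
    s_q1_mk hmb htm
  have a6 := leftx (w := w) (k := k) x H (List.replicate (x + 1) .d ++ .f1 :: γ) hH hx
  have a7 : Rch w (.go, cur k (H.drop (x + 1)) + 1, List.replicate (x + 1) .d ++ .f1 :: γ)
      (.ev, cur k (H.drop (x + 1)) + 1, List.replicate (x + 1) .d ++ .f1 :: γ) := s_go_d
  have a8 := ihx (List.replicate (x + 1) .d ++ .f1 :: γ)
  have a9 := rightx (w := w) (k := k) vx x H (.f1 :: γ) hH hx hM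
  have A := (((((((a1.trans a2).trans a3).trans a4).trans a5).trans a6).trans a7).trans a8).trans a9
  by_cases hv : vx = decide (t = .an)
  · rw [if_pos hv]
    have b1 : Rch w (.ret vx, cur k H + 1, .f1 :: γ) (.p2a, cur k H + 1 + 1, .f2 :: γ) :=
      s_ret_f1_go hmb hv
    have b2 : Rch w (.p2a, cur k H + 1 + 1, .f2 :: γ)
        (.p2a, cur k H + 1 + (x + 1) + 1, .f2 :: γ) :=
      loopR_keep .p2a (fun t => t = .pa) (fun p t b γ ht hp => by subst ht; exact s_p2a_pa hp)
        (x + 1) (cur k H + 1) _ (fun j hj => by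
          obtain ⟨b, hb⟩ := ha j hj
          exact ⟨_, b, rfl, hb⟩)
    have b3 : Rch w (.p2a, cur k H + 1 + (x + 1) + 1, .f2 :: γ)
        (.p2, cur k H + 1 + (x + 1) + 1 + 1, .d :: .f2 :: γ) := s_p2a_pb hpb0
    have b4 : Rch w (.p2, cur k H + 1 + (x + 1) + 1 + 1, .d :: .f2 :: γ)
        (.p2, cur k H + 1 + (x + 1) + 1 + y + 1, List.replicate y .d ++ .d :: .f2 :: γ) :=
      loopR_push .p2 .d .pb (fun p b γ hp => s_p2_pb hp) y (cur k H + 1 + (x + 1) + 1) _
        (fun j hj => by
          obtain ⟨b, hb⟩ := hb (j + 1) (by omega)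
          refine ⟨b, ?_⟩
          rwa [show cur k H + 1 + (x + 1) + 1 + j = cur k H + 1 + (x + 1) + (j + 1) by omega])
    rw [rep_cons, show cur k H + 1 + (x + 1) + 1 + y + 1
      = cur k H + 1 + (x + 1) + (y + 1) + 1 by omega] at b4
    have b5 : Rch w (.p2, cur k H + 1 + (x + 1) + (y + 1) + 1,
        List.replicate (y + 1) .d ++ .f2 :: γ)
        (.q2, cur k H + 1 + (x + 1) + (y + 1), List.replicate (y + 1) .d ++ .f2 :: γ) :=
      s_p2_end hn
    have b6 : Rch w (.q2, cur k H + 1 + (x + 1) + (y + 1), List.replicate (y + 1) .d ++ .f2 :: γ)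
        (.q2, cur k H + 1 + (x + 1),
          List.replicate (y + 1) .e ++ (List.replicate (y + 1) .d ++ .f2 :: γ)) :=
      loopL_push .q2 .e .pb (fun p b γ hp => s_q2_pb hp) (y + 1) (cur k H + 1 + (x + 1)) _ hb
    have b7 : Rch w (.q2, cur k H + 1 + (x + 1),
          List.replicate (y + 1) .e ++ (List.replicate (y + 1) .d ++ .f2 :: γ))
        (.q2, cur k H + 1,
          List.replicate (y + 1) .e ++ (List.replicate (y + 1) .d ++ .f2 :: γ)) :=
      loopL_keep .q2 (fun t => t = .pa) (fun p t b γ ht hp => by subst ht; exact s_q2_pa hp)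
        (x + 1) (cur k H + 1) _ (fun j hj => by
          obtain ⟨b, hb⟩ := ha j hj
          exact ⟨_, b, rfl, hb⟩)
    have b8 : Rch w (.q2, cur k H + 1,
          List.replicate (y + 1) .e ++ (List.replicate (y + 1) .d ++ .f2 :: γ))
        (.go, cur k H + 1,
          List.replicate (y + 1) .e ++ (List.replicate (y + 1) .d ++ .f2 :: γ)) :=
      s_q2_mk hmb htm
    have b9 := leftx (w := w) (k := k) y H (List.replicate (y + 1) .d ++ .f2 :: γ) hH hy
    have b10 : Rch w (.go, cur k (H.drop (y + 1)) + 1, List.replicate (y + 1) .d ++ .f2 :: γ)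
        (.ev, cur k (H.drop (y + 1)) + 1, List.replicate (y + 1) .d ++ .f2 :: γ) := s_go_d
    have b11 := ihy (List.replicate (y + 1) .d ++ .f2 :: γ)
    have b12 := rightx (w := w) (k := k) vy y H (.f2 :: γ) hH hy hM
    have b13 : Rch w (.ret vy, cur k H + 1, .f2 :: γ) (.ret vy, cur k H + 1, γ) := s_ret_f2
    exact (((((((((((((A.trans b1).trans b2).trans b3).trans b4).trans b5).trans b6).trans
      b7).trans b8).trans b9).trans b10).trans b11).trans b12).trans b13)
  · rw [if_neg hv]
    exact A.trans (s_ret_f1_ret hmb hv)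

end layout

end Pool.Agent.H257R4.TP
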