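import Pool.Agent.H257R4.TP.Mach2

set_option autoImplicit false

/-!
# The automaton evaluates the circuit: the theorem
-/

namespace Pool.Agent.H257R4.TP

open H534R2.Gen Pool.Agent.H541R2

section main

variable {X : Type} {w : List (Tag × Bool)} {k : ℕ}

theorem WF.tail' {g : Gate X} {H : List (Gate X)} (h : WF (g :: H)) : WF H := by
  cases g with
  | inp x => exact h
  | cst c => exact h
  | an x y => exact h.2.2
  | or x y => exact h.2.2

theorem WF.drop' {H : List (Gate X)} (h : WF H) (x : ℕ) : WF (H.drop x) := by
  induction x generalizing H with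
  | zero => exact h
  | succ x ih =>
    cases H with
    | nil => exact h
    | cons g H => exact ih h.tail'

theorem evP_tail (β : ℕ → Bool) (g : Gate X) (H : List (Gate X)) :
    ∃ c, evP β (g :: H) = c :: evP β H := by
  cases g <;> exact ⟨_, rfl⟩

theorem evP_drop (β : ℕ → Bool) (x : ℕ) : ∀ H : List (Gate X),
    (evP β H)[x]? = (evP β (H.drop x))[0]? := by
  induction x with
  | zero => intro H; rfl
  | succ x ih =>
    intro H
    cases H with
    | nil => rfl
    | cons g H =>
      obtain ⟨c, hc⟩ := evP_tail β g H
      rw [hc, List.getElem?_cons_succ, ih H]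
      rfl

theorem main_ev (β : ℕ → Bool) (hβ : ∀ p t b, w[k + p]? = some (t, b) → β p = b) : ∀ (n : ℕ)
    (g : Gate X) (H : List (Gate X)), H.length ≤ n → WF (g :: H) → Cv w k (g :: H) →
    (∀ b, w[cur k (g :: H)]? ≠ some (.pb, b)) → ∀ γ : List Sy,
    Rch w (.ev, cur k H + 1, γ) (.ret ((evP β (g :: H))[0]?.getD false), cur k H + 1, γ) := by
  intro n
  induction n with
  | zero =>
    intro g H hn hW hC _ γ
    have hH : H = [] := List.eq_nil_of_length_eq_zero (by omega)
    subst hH
    cases g with
    | inp x =>
      obtain ⟨b, hb⟩ := hC.at 0 (by simp [Gate.block])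
      have hb' : w[cur k ([] : List (Gate X))]? = some (.inp, b) := hb
      have := hβ (cells ([] : List (Gate X))).length _ _ hb'
      show Rch w _ (.ret (β (cells ([] : List (Gate X))).length), _, γ)
      rw [this]
      exact s_ev_inp hb'
    | cst c =>
      cases c with
      | true =>
        obtain ⟨b, hb⟩ := hC.at 0 (by simp [Gate.block])
        exact s_ev_tt hb
      | false =>
        obtain ⟨b, hb⟩ := hC.at 0 (by simp [Gate.block])
        exact s_ev_ff hb
    | an x y => exact absurd hW.1 (Nat.not_lt_zero _)
    | or x y => exact absurd hW.1 (Nat.not_lt_zero _)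
  | succ n ih =>
    intro g H hn hW hC hnx γ
    -- the operand `x`
    have key : ∀ x, x < H.length → ∀ γ : List Sy, Rch w (.ev, cur k (H.drop (x + 1)) + 1, γ)
        (.ret ((evP β H)[x]?.getD false), cur k (H.drop (x + 1)) + 1, γ) := by
      intro x hx γ
      have hd := List.drop_eq_getElem_cons hx
      have hCx : Cv w k (H[x] :: H.drop (x + 1)) := by rw [← hd]; exact hC.tail.drop x
      have hWx : WF (H[x] :: H.drop (x + 1)) := by rw [← hd]; exact hW.tail'.drop' x
      rw [evP_drop β x H, hd]
      refine ih _ _ (by rw [List.length_drop]; omega) hWx hCx ?_ γ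
      rw [← hd]
      intro b hb
      have hM : MkAt w (cur k (H.drop x)) := by
        cases x with
        | zero => exact hC.mkAt
        | succ x => exact hC.tail.mkAt_drop (by omega)
      obtain ⟨t', b', h1, h2⟩ := hM
      rw [hb] at h1
      cases h1
      exact absurd h2 (by decide)
    have hlen : ∀ x y : ℕ, cur k (Gate.an x y :: H) = cur k H + 1 + (x + 1) + (y + 1) := by
      intro x y
      show k + (cells H ++ Gate.block (.an x y)).length = _
      simp only [List.length_append, Gate.block, List.length_cons, List.length_replicate, cur]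
      omega
    have hlen' : ∀ x y : ℕ, cur k (Gate.or x y :: H) = cur k H + 1 + (x + 1) + (y + 1) := by
      intro x y
      show k + (cells H ++ Gate.block (.or x y)).length = _
      simp only [List.length_append, Gate.block, List.length_cons, List.length_replicate, cur]
      omega
    cases g with
    | inp x =>
      obtain ⟨b, hb⟩ := hC.at 0 (by simp [Gate.block])
      have hb' : w[cur k H]? = some (.inp, b) := hb
      have := hβ (cells H).length _ _ hb'
      show Rch w _ (.ret (β (cells H).length), _, γ)
      rw [this]
      exact s_ev_inp hb'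
    | cst c =>
      cases c with
      | true =>
        obtain ⟨b, hb⟩ := hC.at 0 (by simp [Gate.block])
        exact s_ev_tt hb
      | false =>
        obtain ⟨b, hb⟩ := hC.at 0 (by simp [Gate.block])
        exact s_ev_ff hb
    | an x y =>
      have hm := hC.at 0 (by simp [Gate.block])
      have ha : ∀ j < x + 1, ∃ b, w[cur k H + 1 + j]? = some (.pa, b) := by
        intro j hj
        obtain ⟨b, hb⟩ := hC.at (j + 1) (by simp [Gate.block]; omega)
        refine ⟨b, ?_⟩
        rw [show cur k H + 1 + j = cur k H + (j + 1) by omega, hb]
        simp only [Gate.block, List.getElem_cons_succ]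
        rw [List.getElem_append_left (by simpa using hj), List.getElem_replicate]
      have hb : ∀ j < y + 1, ∃ b, w[cur k H + 1 + (x + 1) + j]? = some (.pb, b) := by
        intro j hj
        obtain ⟨b, hb⟩ := hC.at ((x + 1) + j + 1) (by simp [Gate.block]; omega)
        refine ⟨b, ?_⟩
        rw [show cur k H + 1 + (x + 1) + j = cur k H + ((x + 1) + j + 1) by omega, hb]
        simp only [Gate.block, List.getElem_cons_succ]
        rw [List.getElem_append_right (by simp), List.getElem_replicate]
      rw [hlen] at hnx
      have hB := bin (t := .an) (Or.inl rfl) hC.tail hW.1 hW.2.1 hm ha hb hnx _ _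
        (key x hW.1) (key y hW.2.1) γ
      have e : (if (evP β H)[x]?.getD false = decide (Tag.an = Tag.an) then
          (evP β H)[y]?.getD false else (evP β H)[x]?.getD false)
          = ((evP β (Gate.an x y :: H))[0]?.getD false) := by
        show _ = ((evP β H)[x]?.getD false && (evP β H)[y]?.getD false)
        cases (evP β H)[x]?.getD false <;> simp
      rw [e] at hB
      exact hB
    | or x y =>
      have hm := hC.at 0 (by simp [Gate.block])
      have ha : ∀ j < x + 1, ∃ b, w[cur k H + 1 + j]? = some (.pa, b) := by
        intro j hj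
        obtain ⟨b, hb⟩ := hC.at (j + 1) (by simp [Gate.block]; omega)
        refine ⟨b, ?_⟩
        rw [show cur k H + 1 + j = cur k H + (j + 1) by omega, hb]
        simp only [Gate.block, List.getElem_cons_succ]
        rw [List.getElem_append_left (by simpa using hj), List.getElem_replicate]
      have hb : ∀ j < y + 1, ∃ b, w[cur k H + 1 + (x + 1) + j]? = some (.pb, b) := by
        intro j hj
        obtain ⟨b, hb⟩ := hC.at ((x + 1) + j + 1) (by simp [Gate.block]; omega)
        refine ⟨b, ?_⟩
        rw [show cur k H + 1 + (x + 1) + j = cur k H + ((x + 1) + j + 1) by omega, hb]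
        simp only [Gate.block, List.getElem_cons_succ]
        rw [List.getElem_append_right (by simp), List.getElem_replicate]
      rw [hlen'] at hnx
      have hB := bin (t := .or) (Or.inr rfl) hC.tail hW.1 hW.2.1 hm ha hb hnx _ _
        (key x hW.1) (key y hW.2.1) γ
      have e : (if (evP β H)[x]?.getD false = decide (Tag.or = Tag.an) then
          (evP β H)[y]?.getD false else (evP β H)[x]?.getD false)
          = ((evP β (Gate.or x y :: H))[0]?.getD false) := by
        show _ = ((evP β H)[x]?.getD false || (evP β H)[y]?.getD false)
        cases (evP β H)[x]?.getD false <;> simp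
      rw [e] at hB
      exact hB

/-- in the state `acc` or `dead` the automaton stays in its state -/
theorem stay_acc (m : ℕ) : ∀ p γ, ((ss w)^[m] (.acc, p, γ)).1 = .acc := by
  induction m with
  | zero => intro p γ; rfl
  | succ m ih => intro p γ; rw [Function.iterate_succ_apply]; exact ih _ _

theorem stay_dead (m : ℕ) : ∀ p γ, ((ss w)^[m] (.dead, p, γ)).1 = .dead := by
  induction m with
  | zero => intro p γ; rfl
  | succ m ih => intro p γ; rw [Function.iterate_succ_apply]; exact ih _ _

end main

/-- a run that ends in the state `acc` or `dead` decides membership -/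
theorem decide_of_run {w : List (Tag × Bool)} {v : Bool} {p : ℕ} {γ : List Sy}
    (h : Rch w (.q0, 0, []) (if v then .acc else .dead, p, γ)) : w ∈ LL ↔ v = true := by
  obtain ⟨m, hm⟩ := h
  have hL : w ∈ LL ↔ ∃ m, ((ss w)^[m] (.q0, 0, [])).1 = .acc := by
    constructor
    · rintro ⟨m, hm⟩
      refine ⟨m, ?_⟩
      have := iter_emb w m (.q0, 0, [])
      have e : emb (.q0, 0, []) = (St.q0, (fun _ => 0), []) := rfl
      rw [e] at this
      rw [this] at hm
      exact hm
    · rintro ⟨m, hm⟩
      refine ⟨m, ?_⟩
      have := iter_emb w m (.q0, 0, [])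
      have e : emb (.q0, 0, []) = (St.q0, (fun _ => 0), []) := rfl
      rw [e] at this
      rw [this]
      exact hm
  rw [hL]
  constructor
  · rintro ⟨m', hm'⟩
    cases v with
    | true => rfl
    | false =>
      exfalso
      have e1 : (ss w)^[m + m'] (.q0, 0, []) = (ss w)^[m] ((ss w)^[m'] (.q0, 0, [])) :=
        Function.iterate_add_apply _ _ _ _
      have e2 : (ss w)^[m + m'] (.q0, 0, []) = (ss w)^[m'] ((ss w)^[m] (.q0, 0, [])) := by
        rw [Nat.add_comm, Function.iterate_add_apply]
      rw [hm] at e2
      have h2 : ((ss w)^[m + m'] (St.q0, 0, [])).1 = .dead := by rw [e2]; exact stay_dead m' _ _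
      have h1 : ((ss w)^[m + m'] (St.q0, 0, [])).1 = .acc := by
        rw [e1]
        generalize (ss w)^[m'] (St.q0, 0, ([] : List Sy)) = c at hm'
        obtain ⟨q, p', γ'⟩ := c
        have : q = .acc := hm'
        subst this
        exact stay_acc m _ _
      rw [h1] at h2
      cases h2
  · rintro rfl
    exact ⟨m, by rw [hm]; rfl⟩

section start

variable {X : Type} {w : List (Tag × Bool)} {k : ℕ}

/-- from the left end to the right end -/
theorem run_right (n : ℕ) : ∀ p, p + n = w.length →
    Rch w (.q0, p + 1, []) (.qL, w.length, []) := by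
  induction n with
  | zero =>
    intro p hp
    have : p = w.length := hp
    subst this
    exact s_q0_end (List.getElem?_eq_none (le_refl _))
  | succ n ih =>
    intro p hp
    have hlt : p < w.length := by omega
    exact (s_q0 (List.getElem?_eq_getElem hlt)).trans (ih (p + 1) (by omega))

theorem mach : StMach := by
  intro X G hW hne k w hw
  cases G with
  | nil => exact absurd rfl hne
  | cons g H =>
  have hlen : w.length = cur k (g :: H) := by
    have := congrArg List.length hw
    simpa [cur] using this
  have hC : Cv w k (g :: H) := by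
    intro p t o hp
    have h1 : (w.map Prod.fst)[k + p]? = some t := by
      rw [hw, List.getElem?_append_right (by simp), List.length_replicate, Nat.add_sub_cancel_left,
        List.getElem?_map, hp]
      rfl
    rw [List.getElem?_map] at h1
    cases hwp : w[k + p]? with
    | none => rw [hwp] at h1; cases h1
    | some c =>
      rw [hwp] at h1
      refine ⟨c.2, ?_⟩
      have : c.1 = t := by simpa using h1
      rw [← this]
  set β : ℕ → Bool := fun p => ((w[k + p]?).map Prod.snd).getD false with hβdef
  have hβ : ∀ p t b, w[k + p]? = some (t, b) → β p = b := by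
    intro p t b h
    simp only [hβdef, h, Option.map_some, Option.getD_some]
  have hnx : ∀ b, w[cur k (g :: H)]? ≠ some (.pb, b) := by
    intro b
    rw [← hlen, List.getElem?_eq_none (le_refl _)]
    exact fun h => by cases h
  apply decide_of_run (p := cur k H + 1) (γ := [])
  -- to the right end
  have a1 : Rch w (.q0, 0, []) (.q0, 0 + 1, []) := s_q0_0
  have a2 := run_right (w := w) w.length 0 (by omega)
  -- back to the last gate
  obtain ⟨r, hr, hcell⟩ := hC.between
  obtain ⟨t, b, hm, ht⟩ := hC.mkAt
  have a3 := loopL_keep (w := w) .qL (fun t => t.mk = false)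
    (fun p t b γ ht hp => s_ql_pa hp ht) r (cur k H + 1) [] hcell
  rw [← hr, ← hlen] at a3
  have a4 : Rch w (.qL, cur k H + 1, []) (.ev, cur k H + 1, []) := s_ql_mk hm ht
  have a5 := main_ev β hβ H.length g H (le_refl _) hW hC hnx []
  exact (((((a1.trans a2).trans a3).trans a4).trans a5).trans s_ret_end)

end start

end Pool.Agent.H257R4.TP
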