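import Pool.Agent.H257R4.TP.Defs

set_option autoImplicit false

/-!
# Statements of the parts
-/

namespace Pool.Agent.H257R4.TP

open H534R2.Gen Pool.Agent.H541R2

/-- all operands of all gates are less than `B + 1` places back -/
def Loc {X : Type} (B : ℕ) : List (Gate X) → Prop
  | [] => True
  | .inp _ :: G => Loc B G
  | .cst _ :: G => Loc B G
  | .an x y :: G => x < B ∧ y < B ∧ Loc B G
  | .or x y :: G => x < B ∧ y < B ∧ Loc B G

/-- T2: monotonicity -/
def StMono : Prop := ∀ (X : Type) (β β' : ℕ → Bool), (∀ p, β p = true → β' p = true) →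
  ∀ (G : List (Gate X)) (i : ℕ), (evP β G)[i]?.getD false = true →
    (evP β' G)[i]?.getD false = true

/-- T3: values for consistent bits -/
def StEval : Prop := ∀ (X : Type) (β : ℕ → Bool) (v : X → Bool) (G : List (Gate X)),
  (∀ (p : ℕ) (t : Tag) (x : X), (cells G)[p]? = some (t, some x) → β p = v x) →
    evP β G = evL v G

/-- T4: length -/
def StLen : Prop := ∀ (X : Type) (B : ℕ) (G : List (Gate X)), Loc B G →
  (cells G).length ≤ G.length * (2 * B + 1)

/-- T5: monotone circuits are lists of gates -/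
def StMC : Prop := ∀ (X : Type) (L : List ((X → Prop) → Prop)), MC L →
  ∃ G : List (Gate X), WF G ∧ G.length = L.length ∧ ∀ (v : X → Bool) (i : ℕ) (hi : i < L.length),
    ((evL v G)[i]?.getD false = true ↔ L[i] (fun x => v x = true))

/-- T6: the disjunction of `M` copies -/
def StBlocks : Prop := ∀ (X Y : Type) (G : List (Gate Y)) (_ : WF G) (j : ℕ) (_ : j < G.length)
  (M : ℕ) (e : ℕ → Y → X), ∃ H : List (Gate X), WF H ∧ H ≠ [] ∧
    H.length = M * (G.length + 1) + 1 ∧ Loc (G.length + 1) H ∧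
    ∀ v : X → Bool, ((evL v H)[0]?.getD false = true ↔
      ∃ b < M, (evL (fun y => v (e b y)) G)[j]?.getD false = true)

/-- T7: the lower bound for computations in rounds, after a substitution of the variables -/
def StRounds : Prop := ∀ (M h r ℓ n : ℕ), 6 * ℓ ^ 2 + 6 * ℓ + 12 ≤ h → r = 6 * (h + 1) ^ 2 →
  ∀ (ρ : Fin n → Option (PVar M h (r ^ 2))) (d : ℕ) (w : ℕ → ℕ)
    (N : ℕ → ℕ → (ℕ → ℕ → Prop) → DNet (Fin n)),
    (∀ i k A A', (∀ j < i, ∀ k' < w j, (A j k' ↔ A' j k')) → N i k A = N i k A') →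
    (∀ A, (∑ i ∈ Finset.range d, ∑ k ∈ Finset.range (w i), (N i k A).size)
      + (N d 0 A).size ≤ 2 ^ ℓ) →
    (∀ v : PVar M h (r ^ 2) → Prop, ∃ A : ℕ → ℕ → Prop,
      (∀ i < d, ∀ k < w i, (A i k ↔ (N i k A).Accepts (fun p => ∃ x, ρ p = some x ∧ v x))) ∧
      ((N d 0 A).Accepts (fun p => ∃ x, ρ p = some x ∧ v x) ↔ PyrFn v)) →
    M + 1 ≤ ∏ i ∈ Finset.range d, (w i + 1)

/-- T1: the automaton evaluates the circuit (`k` cells of padding in front of the word) -/
def StMach : Prop := ∀ (X : Type) (G : List (Gate X)), WF G → G ≠ [] →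
  ∀ (k : ℕ) (w : List (Tag × Bool)),
    w.map Prod.fst = List.replicate k Tag.pa ++ (cells G).map Prod.fst →
    (w ∈ LL ↔ (evP (fun p => ((w[k + p]?).map Prod.snd).getD false) G)[0]?.getD false = true)

end Pool.Agent.H257R4.TP
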